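import Pool.Agent.Helper28.VT.W1
import Pool.Agent.Helper62.VT.RoabpDef
import Pool.Agent.Helper21.VT.W3c

/-!
# Module W3d: a generator which is faithful for read-once oblivious branching programs
-/

namespace Pool.Agent.Helper76.VT

open MvPolynomial Finset
open Pool.Agent.Helper62.VT Pool.Agent.Helper28.VT
open Pool.Agent.Helper28.D4 (G)

/-- The generator shifted by the hitting curve. -/
noncomputable def PsiR (n M W h : ℕ) :
    MvPolynomial (Fin n) ℂ →ₐ[ℂ] MvPolynomial (Option (Fin M ⊕ Fin M)) ℂ :=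
  MvPolynomial.aeval fun l =>
    Polynomial.aeval (MvPolynomial.X none : MvPolynomial (Option (Fin M ⊕ Fin M)) ℂ) (curve W h l) +
    Pool.Agent.Helper28.D4.G n M (fun j => MvPolynomial.X (some (Sum.inl j)))
      (fun j => MvPolynomial.X (some (Sum.inr j))) l

/-- evaluating the specialised polynomial -/
lemma eval_sp {n t : ℕ} (e : Fin t → Fin n) (he : Function.Injective e) (a : Fin n → ℂ)
    (f : MvPolynomial (Fin n) ℂ) :
    MvPolynomial.aeval (fun j => a (e j)) (sp e a f) = MvPolynomial.aeval a f := by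
  have : ((MvPolynomial.aeval (fun j => a (e j)) : MvPolynomial (Fin t) ℂ →ₐ[ℂ] ℂ).comp (sp e a)) =
      MvPolynomial.aeval a := by
    apply MvPolynomial.algHom_ext
    intro l
    rw [AlgHom.comp_apply]
    by_cases hl : l ∈ Set.range e
    · obtain ⟨k, rfl⟩ := hl
      rw [sp_X_mem e he, aeval_X, aeval_X]
    · rw [sp_X_notMem e a l hl, aeval_C, aeval_X]
      rfl
  exact DFunLike.congr_fun this f

/-- specialisation of the parameters of the generator -/
noncomputable def chiR {n M t : ℕ} (e : Fin t → Fin n) (a : Fin n → ℂ) (τ : ℂ) :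
    MvPolynomial (Option (Fin M ⊕ Fin M)) ℂ →ₐ[ℂ] MvPolynomial (Fin t) ℂ :=
  MvPolynomial.aeval fun o => match o with
    | none => C τ
    | some (Sum.inl j) =>
        if h : (j : ℕ) < t then C (kap n (e ⟨j, h⟩))⁻¹ * (X ⟨j, h⟩ - C (a (e ⟨j, h⟩))) else 0
    | some (Sum.inr j) => if h : (j : ℕ) < t then C (((e ⟨j, h⟩ : Fin n) : ℕ) : ℂ) else 0

lemma chiR_PsiR_X {n M t W h : ℕ} (ht : t ≤ M) (e : Fin t → Fin n) (he : Function.Injective e)
    (τ : ℂ) (l : Fin n) :
    chiR (M := M) e (fun l => (curve W h l).eval τ) τ (PsiR n M W h (X l)) =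
      sp e (fun l => (curve W h l).eval τ) (X l) := by
  classical
  set a : Fin n → ℂ := fun l => (curve W h l).eval τ with ha
  have hX : PsiR n M W h (X l) =
    Polynomial.aeval (MvPolynomial.X none : MvPolynomial (Option (Fin M ⊕ Fin M)) ℂ) (curve W h l) +
    Pool.Agent.Helper28.D4.G n M (fun j => MvPolynomial.X (some (Sum.inl j)))
      (fun j => MvPolynomial.X (some (Sum.inr j))) l := by rw [PsiR, aeval_X]
  rw [hX, map_add]
  have h1 := Pool.Agent.Helper28.D4.map_G (chiR (M := M) e a τ).toRingHom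
    (fun j : Fin M => MvPolynomial.X (some (Sum.inl j))) (fun j => MvPolynomial.X (some (Sum.inr j))) l
  simp only [AlgHom.toRingHom_eq_coe, RingHom.coe_coe] at h1
  rw [h1]
  have h2 : chiR (M := M) e a τ (Polynomial.aeval (MvPolynomial.X none :
      MvPolynomial (Option (Fin M ⊕ Fin M)) ℂ) (curve W h l)) = C (a l) := by
    have h0 : chiR (M := M) e a τ (X none) = C τ := by rw [chiR, aeval_X]
    rw [← Polynomial.aeval_algHom_apply, h0, ← MvPolynomial.algebraMap_eq,
      Polynomial.aeval_algebraMap_apply, Polynomial.coe_aeval_eq_eval]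
  have h3 : ∀ j : Fin M, chiR (M := M) e a τ (X (some (Sum.inl j))) =
      if h : (j : ℕ) < t then C (kap n (e ⟨j, h⟩))⁻¹ * (X ⟨j, h⟩ - C (a (e ⟨j, h⟩))) else 0 := by
    intro j; rw [chiR, aeval_X]
  have h4 : ∀ j : Fin M, chiR (M := M) e a τ (X (some (Sum.inr j))) =
      if h : (j : ℕ) < t then C (((e ⟨j, h⟩ : Fin n) : ℕ) : ℂ) else 0 := by
    intro j; rw [chiR, aeval_X]
  rw [h2, G]
  simp_rw [h3, h4]
  -- the product
  have hprod : ∀ j : Fin t, (∏ i' ∈ Finset.univ.erase l,
      ((C (((e j : Fin n) : ℕ) : ℂ) : MvPolynomial (Fin t) ℂ) - (((i' : Fin n) : ℕ) : MvPolynomial (Fin t) ℂ))) =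
      if e j = l then C (kap n l) else 0 := by
    intro j
    split_ifs with h
    · rw [kap, map_prod]
      apply prod_congr rfl
      intro i _
      rw [h, map_sub, map_natCast, map_natCast]
    · apply Finset.prod_eq_zero (i := e j)
      · exact Finset.mem_erase.2 ⟨h, mem_univ _⟩
      · rw [map_natCast, sub_self]
  have hterm : ∀ j : Fin M, (if h : (j : ℕ) < t then C (kap n (e ⟨j, h⟩))⁻¹ * (X ⟨j, h⟩ - C (a (e ⟨j, h⟩))) else 0) *
      ∏ i' ∈ Finset.univ.erase l, ((if h : (j : ℕ) < t then C (((e ⟨j, h⟩ : Fin n) : ℕ) : ℂ) else 0) -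
        (((i' : Fin n) : ℕ) : MvPolynomial (Fin t) ℂ)) =
      if h : (j : ℕ) < t then (if e ⟨j, h⟩ = l then X ⟨j, h⟩ - C (a l) else 0) else 0 := by
    intro j
    by_cases h : (j : ℕ) < t
    · simp only [dif_pos h]
      rw [hprod ⟨j, h⟩]
      split_ifs with h'
      · rw [h', mul_comm (C (kap n l)⁻¹), mul_assoc, ← C_mul, inv_mul_cancel₀ (kap_ne n l), C_1, mul_one]
      · rw [mul_zero]
    · simp only [dif_neg h, zero_mul]
  rw [Finset.sum_congr rfl (fun j _ => hterm j)]
  by_cases hl : l ∈ Set.range e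
  · obtain ⟨k, rfl⟩ := hl
    rw [sp_X_mem e he, Finset.sum_eq_single (⟨k, by omega⟩ : Fin M)]
    · simp
    · intro j _ hj
      split_ifs with h h'
      · exfalso
        apply hj
        have := he h'
        rw [← this]
      · rfl
      · rfl
    · intro h; exact absurd (mem_univ _) h
  · rw [sp_X_notMem e _ l hl, Finset.sum_eq_zero, add_zero]
    intro j _
    split_ifs with h h'
    · exact absurd ⟨_, h'⟩ hl
    · rfl
    · rfl

lemma chiR_PsiR {n M t W h : ℕ} (ht : t ≤ M) (e : Fin t → Fin n) (he : Function.Injective e) (τ : ℂ)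
    (f : MvPolynomial (Fin n) ℂ) :
    chiR (M := M) e (fun l => (curve W h l).eval τ) τ (PsiR n M W h f) =
      sp e (fun l => (curve W h l).eval τ) f := by
  have : (chiR (M := M) e (fun l => (curve W h l).eval τ) τ).comp (PsiR n M W h) =
      sp e (fun l => (curve W h l).eval τ) := by
    apply MvPolynomial.algHom_ext
    intro l
    exact chiR_PsiR_X ht e he τ l
  exact DFunLike.congr_fun this f

/-- If the Jacobian minor does not vanish on the curve, the images are algebraically independent. -/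
theorem algInd_of_curve {n M t W h : ℕ} (ht : t ≤ M) (c : Fin t → MvPolynomial (Fin n) ℂ)
    (e : Fin t → Fin n) (he : Function.Injective e)
    (hD : MvPolynomial.aeval (fun l : Fin n => curve W h l)
      (Matrix.of fun i j => pderiv (e j) (c i)).det ≠ 0) :
    AlgebraicIndependent ℂ (fun i => PsiR n M W h (c i)) := by
  classical
  obtain ⟨τ, hτ⟩ : ∃ τ : ℂ, (MvPolynomial.aeval (fun l : Fin n => curve W h l)
      (Matrix.of fun i j => pderiv (e j) (c i)).det).eval τ ≠ 0 := by
    by_contra hcon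
    push Not at hcon
    exact hD (Polynomial.funext (fun a => by simpa using hcon a))
  set a : Fin n → ℂ := fun l => (curve W h l).eval τ with ha
  have hτ' : MvPolynomial.aeval a (Matrix.of fun i j => pderiv (e j) (c i)).det ≠ 0 := by
    intro h0
    apply hτ
    rw [← h0, ← Polynomial.coe_aeval_eq_eval, MvPolynomial.comp_aeval_apply]
    rfl
  have hind : AlgebraicIndependent ℂ (fun i => sp e a (c i)) := by
    apply Pool.Agent.Helper93.D4.algInd_of_jac
    have h1 : (Matrix.of fun i j => pderiv j (sp e a (c i))) =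
        (sp e a).toRingHom.mapMatrix (Matrix.of fun i j => pderiv (e j) (c i)) := by
      ext1 i j
      simp [pderiv_sp e he]
    rw [h1, ← RingHom.map_det]
    intro h0
    apply hτ'
    rw [← eval_sp e he a]
    have h2 : sp e a (Matrix.of fun i j => pderiv (e j) (c i)).det = 0 := h0
    rw [h2, map_zero]
  rw [algebraicIndependent_iff]
  intro F hF
  rw [algebraicIndependent_iff] at hind
  apply hind
  have h1 := congrArg (chiR (M := M) e a τ) hF
  rw [map_zero, comp_aeval_apply] at h1
  simp_rw [ha, chiR_PsiR ht e he τ] at h1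
  exact h1

/-- **Module W3d**, with the hitting property of the curve (W3b) as a hypothesis. -/
theorem roabp_faithful_of (n M κ h : ℕ) (hκ : 1 ≤ κ)
    (hits : ∀ f : MvPolynomial (Fin n) ℂ, IsRO (M.factorial * κ ^ M) f → f ≠ 0 →
      MvPolynomial.aeval (fun l : Fin n => curve (M.factorial * κ ^ M) h l) f ≠ 0)
    (c : Fin M → MvPolynomial (Fin n) ℂ) (hc : ∀ j, IsRO κ (c j))
    (H : MvPolynomial (Fin M) ℂ) (h0 : MvPolynomial.aeval c H ≠ 0) :
    PsiR n M (M.factorial * κ ^ M) h (MvPolynomial.aeval c H) ≠ 0 := by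
  classical
  obtain ⟨t, ht, s, hs, B, g, hB, hBg⟩ := Pool.Agent.Helper28.D4.norm_trick (r := M) c (by
    intro s hs
    have : Function.Injective s := fun i j hij => hs.injective (by simp [hij])
    have := Fintype.card_le_of_injective s this
    simp at this) H h0
  intro h0'
  have h1 := congrArg (PsiR n M (M.factorial * κ ^ M) h) hBg
  rw [map_mul, h0', zero_mul, comp_aeval_apply] at h1
  obtain ⟨e, hdet⟩ := Pool.Agent.Helper93.D4.jac_of_algInd (fun i => c (s i)) hs
  have he : Function.Injective e := by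
    intro j k hjk
    by_contra hne
    apply hdet
    apply Matrix.det_zero_of_column_eq hne
    intro i
    simp [hjk]
  have hRO : IsRO (M.factorial * κ ^ M) (Matrix.of fun i j => pderiv (e j) (c (s i))).det := by
    refine IsRO.mono ?_ (IsRO.det (κ := κ) _ fun i j => IsRO.pderiv (e j) (hc (s i)))
    exact Nat.mul_le_mul (Nat.factorial_le ht) (Nat.pow_le_pow_right hκ ht)
  have h2 := algInd_of_curve (M := M) (W := M.factorial * κ ^ M) (h := h) ht (fun i => c (s i)) e he
    (hits _ hRO hdet)
  rw [algebraicIndependent_iff] at h2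
  exact hB (h2 B h1)

end Pool.Agent.Helper76.VT
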